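import Pool.Agent.H96.JCT.Stmts

/-!
Row ARC of board jct: along a piece the winding number changes by the number of crossings modulo 2.
-/

set_option autoImplicit false

namespace Pool.JCT

open Complex Set Topology Filter

theorem arc_even (n : ℤ) : Even n ↔ (n : ZMod 2) = 0 := by
  have h := ZMod.intCast_zmod_eq_zero_iff_dvd n 2
  rw [even_iff_two_dvd]
  constructor
  · intro h1
    exact h.2 (by exact_mod_cast h1)
  · intro h1
    exact_mod_cast h.1 h1

theorem arc_tpi : tpi ≠ 0 := by
  unfold tpi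
  exact Complex.two_pi_I_ne_zero

theorem arc_gap (I : Finset ℕ) (r : ℕ → ℝ) (x : ℝ) :
    ∃ δ : ℝ, 0 < δ ∧ ∀ i ∈ I, r i ≠ x → δ ≤ |r i - x| := by
  classical
  induction I using Finset.induction_on with
  | empty => exact ⟨1, one_pos, fun i hi => absurd hi (Finset.notMem_empty i)⟩
  | insert j I _ ih =>
    obtain ⟨δ, hδ, h⟩ := ih
    by_cases hj : r j = x
    · refine ⟨δ, hδ, fun i hi hne => ?_⟩
      rcases Finset.mem_insert.1 hi with rfl | hi
      · exact absurd hj hne
      · exact h i hi hne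
    · have hpos : 0 < |r j - x| := abs_pos.2 (sub_ne_zero.2 hj)
      refine ⟨min δ |r j - x|, lt_min hδ hpos, fun i hi hne => ?_⟩
      rcases Finset.mem_insert.1 hi with rfl | hi
      · exact min_le_right _ _
      · exact (min_le_left _ _).trans (h i hi hne)

/-- the number of crossing times before `t` -/
noncomputable def arcN (I : Finset ℕ) (r : ℕ → ℝ) (t : ℝ) : ℕ :=
  (I.filter fun i => r i < t).card

theorem arcN_eq (I : Finset ℕ) (r : ℕ → ℝ) (x δ t u : ℝ)
    (h : ∀ i ∈ I, r i ≠ x → δ ≤ |r i - x|) (hx : ∀ i ∈ I, r i ≠ x) (ht : |t - x| < δ)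
    (hu : |u - x| < δ) : arcN I r t = arcN I r u := by
  unfold arcN
  congr 1
  apply Finset.filter_congr
  intro i hi
  have h1 := h i hi (hx i hi)
  rw [abs_lt] at ht hu
  rcases le_abs.1 h1 with h2 | h2
  · constructor <;> intro h3 <;> linarith
  · constructor <;> intro h3 <;> linarith

theorem arcN_jump (I : Finset ℕ) (r : ℕ → ℝ) (x δ t u : ℝ)
    (h : ∀ i ∈ I, r i ≠ x → δ ≤ |r i - x|) (ht : |t - x| < δ) (htx : t < x)
    (hu : |u - x| < δ) (hux : x < u) :
    arcN I r u = arcN I r t + (I.filter fun i => r i = x).card := by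
  classical
  unfold arcN
  rw [← Finset.card_union_of_disjoint]
  · congr 1
    ext i
    rw [Finset.mem_union, Finset.mem_filter, Finset.mem_filter, Finset.mem_filter]
    constructor
    · rintro ⟨hi, h3⟩
      by_cases hix : r i = x
      · exact Or.inr ⟨hi, hix⟩
      · left
        refine ⟨hi, ?_⟩
        have h1 := h i hi hix
        rw [abs_lt] at ht hu
        rcases le_abs.1 h1 with h2 | h2
        · linarith
        · linarith
    · rintro (⟨hi, h3⟩ | ⟨hi, h3⟩)
      · exact ⟨hi, by linarith⟩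
      · exact ⟨hi, by linarith⟩
  · rw [Finset.disjoint_left]
    intro i hi hj
    rw [Finset.mem_filter] at hi hj
    have h1 := hi.2
    have h2 := hj.2
    linarith

theorem arc_aux (hWIN : WIN_S) (hLCO : LCO_S) (hLFL : LFL_S) (hIND : IND_S) (k : ℕ)
    (f : ℕ → ℝ → Pl) (a b : ℕ → ℝ) (h : ℝ → Pl) (c d : ℝ) (C : ℕ → ℕ) (hW : Walk k f a b)
    (hc : Continuous h) (hi : InjOn h (Icc 0 1)) (hcd : c ≤ d) (hsub : Icc c d ⊆ Icc 0 1)
    (hC : ∀ i < k, (C i = 0 ∧ Sep (f i) (a i) (b i) h c d) ∨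
      (C i = 1 ∧ One (f i) (a i) (b i) h c d)) :
    ∃ n : ℤ, W k f a b (h d) - W k f a b (h c) = n * tpi ∧
      Even (n - ((∑ i ∈ Finset.range k, C i : ℕ) : ℤ)) := by
  classical
  have huI : uIcc c d = Icc c d := uIcc_of_le hcd
  have hex : ∀ i, ∃ s r : ℝ, i < k → C i = 1 → (SBtw (a i) (b i) s ∧ (c < r ∧ r < d) ∧
      f i s = h r ∧ Pool.MCR.ProperCrossing (f i '' Icc 0 1) (h '' Icc 0 1) (h r) ∧
      ∀ t ∈ uIcc (a i) (b i), ∀ r' ∈ Icc c d, f i t = h r' → t = s ∧ r' = r) := by
    intro i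
    by_cases hik : i < k ∧ C i = 1
    · rcases hC i hik.1 with h0 | h1
      · rw [hik.2] at h0
        exact absurd h0.1 one_ne_zero
      · obtain ⟨s, r, h2, h3, h4, h5, h6⟩ := h1.2
        refine ⟨s, r, fun _ _ => ⟨h2, ?_, h4, h5, ?_⟩⟩
        · rcases h3 with h3 | h3
          · exact h3
          · exact absurd (h3.1.trans h3.2) (not_lt.2 hcd)
        · rw [← huI]
          exact h6
    · exact ⟨0, 0, fun h1 h2 => absurd ⟨h1, h2⟩ hik⟩
  choose s r hsr using hex
  obtain ⟨I, hI⟩ : ∃ I : Finset ℕ, I = (Finset.range k).filter fun i => C i = 1 := ⟨_, rfl⟩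
  have hIm : ∀ i, i ∈ I ↔ i < k ∧ C i = 1 := by
    intro i
    rw [hI, Finset.mem_filter, Finset.mem_range]
  have hIc : ((∑ i ∈ Finset.range k, C i : ℕ)) = I.card := by
    rw [hI, Finset.card_filter]
    apply Finset.sum_congr rfl
    intro i hi
    rw [Finset.mem_range] at hi
    rcases hC i hi with h1 | h1
    · rw [h1.1]
      simp
    · rw [h1.1]
      simp
  obtain ⟨T, hT⟩ : ∃ T : Set ℝ, T = r '' (I : Set ℕ) := ⟨_, rfl⟩
  have hTm : ∀ x, x ∈ T ↔ ∃ i ∈ I, r i = x := by
    intro x
    rw [hT, mem_image]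
    rfl
  have hTfin : T.Finite := by
    rw [hT]
    exact (Finset.finite_toSet I).image r
  have hrI : ∀ i ∈ I, c < r i ∧ r i < d := by
    intro i hi
    rw [hIm] at hi
    exact (hsr i hi.1 hi.2).2.1
  have hcT : c ∉ T := by
    rw [hTm]
    rintro ⟨i, hi, h1⟩
    have := (hrI i hi).1
    linarith
  have hdT : d ∉ T := by
    rw [hTm]
    rintro ⟨i, hi, h1⟩
    have := (hrI i hi).2
    linarith
  have hoff : ∀ t ∈ Icc c d, t ∉ T → ∀ i < k, Off (f i) (a i) (b i) (h t) := by
    intro t ht htT i hik t' ht' hft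
    rcases hC i hik with h1 | h1
    · exact h1.2 t' ht' t (by rw [huI]; exact ht) hft
    · have h2 := (hsr i hik h1.1).2.2.2.2 t' ht' t ht hft
      exact htT ((hTm t).2 ⟨i, (hIm i).2 ⟨hik, h1.1⟩, h2.2.symm⟩)
  have hmex : ∀ t, ∃ m : ℤ, t ∈ Icc c d → t ∉ T → W k f a b (h t) = m * tpi := by
    intro t
    by_cases ht : t ∈ Icc c d ∧ t ∉ T
    · obtain ⟨m, hm⟩ := hWIN k f a b (h t) hW (hoff t ht.1 ht.2)
      exact ⟨m, fun _ _ => hm⟩
    · exact ⟨0, fun h1 h2 => absurd ⟨h1, h2⟩ ht⟩
  choose m hm using hmex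
  obtain ⟨g, hg⟩ : ∃ g : ℝ → ZMod 2, ∀ t, g t = (m t : ZMod 2) + (arcN I r t : ZMod 2) :=
    ⟨_, fun _ => rfl⟩
  have hmeq : ∀ t ∈ Icc c d, ∀ u ∈ Icc c d, t ∉ T → u ∉ T → ∀ n : ℤ,
      W k f a b (h u) - W k f a b (h t) = n * tpi → m u = m t + n := by
    intro t ht u hu htT huT n hn
    rw [hm t ht htT, hm u hu huT] at hn
    have h1 : (((m u : ℤ) : ℂ) - ((m t : ℤ) : ℂ) - (n : ℂ)) * tpi = 0 := by
      linear_combination hn
    rcases mul_eq_zero.1 h1 with h2 | h2
    · have h3 : ((m u - m t - n : ℤ) : ℂ) = 0 := by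
        push_cast
        exact h2
      have h4 : m u - m t - n = 0 := by exact_mod_cast h3
      linarith
    · exact absurd h2 arc_tpi
  have hkey : g c = g d := by
    refine hIND c d T g hcd hTfin hcT hdT ?_
    intro x hx
    obtain ⟨δ2, hδ2, hgap⟩ := arc_gap I r x
    by_cases hxT : x ∈ T
    · obtain ⟨i0, hi0, hri0⟩ := (hTm x).1 hxT
      have hcx : c < x := by
        rw [← hri0]
        exact (hrI i0 hi0).1
      have hxd : x < d := by
        rw [← hri0]
        exact (hrI i0 hi0).2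
      have hc01 := hsub (left_mem_Icc.2 hcd)
      have hd01 := hsub (right_mem_Icc.2 hcd)
      have hx01 : x ∈ Ioo (0 : ℝ) 1 := ⟨lt_of_le_of_lt hc01.1 hcx, lt_of_lt_of_le hxd hd01.2⟩
      obtain ⟨C', hC'⟩ : ∃ C' : ℕ → ℕ, ∀ i, C' i = if i ∈ I ∧ r i = x then 1 else 0 :=
        ⟨_, fun _ => rfl⟩
      have hCsum : (∑ i ∈ Finset.range k, C' i : ℕ) = (I.filter fun i => r i = x).card := by
        have h1 : (I.filter fun i => r i = x) =
            (Finset.range k).filter fun i => i ∈ I ∧ r i = x := by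
          ext i
          rw [Finset.mem_filter, Finset.mem_filter, Finset.mem_range]
          constructor
          · rintro ⟨h1, h2⟩
            exact ⟨((hIm i).1 h1).1, h1, h2⟩
          · rintro ⟨-, h1, h2⟩
            exact ⟨h1, h2⟩
        rw [h1, Finset.card_filter]
        exact Finset.sum_congr rfl fun i _ => hC' i
      obtain ⟨δ1, hδ1, hj⟩ := hLFL k f a b h x C' hW hc hi hx01 (by
        intro i hik
        by_cases hh : i ∈ I ∧ r i = x
        · right
          rw [hC', if_pos hh]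
          refine ⟨rfl, s i, ?_⟩
          have h1 := hsr i hik ((hIm i).1 hh.1).2
          rw [hh.2] at h1
          exact ⟨h1.1, h1.2.2.1, h1.2.2.2.1⟩
        · left
          rw [hC', if_neg hh]
          refine ⟨rfl, ?_⟩
          intro t' ht' hft
          rcases hC i hik with h1 | h1
          · exact h1.2 t' ht' x (by rw [huI]; exact hx) hft
          · have h2 := (hsr i hik h1.1).2.2.2.2 t' ht' x hx hft
            exact hh ⟨(hIm i).2 ⟨hik, h1.1⟩, h2.2.symm⟩)
      obtain ⟨δ, hδd⟩ : ∃ δ, δ = min δ1 δ2 := ⟨_, rfl⟩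
      have hδ : 0 < δ := by
        rw [hδd]
        exact lt_min hδ1 hδ2
      have hδ1' : δ ≤ δ1 := by
        rw [hδd]
        exact min_le_left _ _
      have hδ2' : δ ≤ δ2 := by
        rw [hδd]
        exact min_le_right _ _
      -- two sides
      have hcross : ∀ t ∈ Icc c d, ∀ u ∈ Icc c d, |t - x| < δ → |u - x| < δ → t < x → x < u →
          t ∉ T → u ∉ T → g t = g u := by
        intro t ht u hu htx hux h1 h2 htT huT
        have htx' := abs_lt.1 htx
        have hux' := abs_lt.1 hux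
        obtain ⟨-, -, n, hn, hev⟩ := hj t u (by linarith) h1 h2 (by linarith)
        have h3 := hmeq t ht u hu htT huT n hn
        have h4 := arcN_jump I r x δ2 t u hgap (by linarith) h1 (by linarith) h2
        rw [arc_even, hCsum] at hev
        push_cast at hev
        rw [hg, hg, h3, h4]
        push_cast
        have h5 : (2 : ZMod 2) = 0 := rfl
        linear_combination (-1 : ZMod 2) * hev -
          ((Finset.card (I.filter fun i => r i = x) : ℕ) : ZMod 2) * h5
      refine ⟨δ, hδ, ?_⟩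
      intro t ht u hu htx hux htT huT
      have htne : t ≠ x := fun h1 => htT (h1 ▸ hxT)
      have hune : u ≠ x := fun h1 => huT (h1 ▸ hxT)
      have hnotT : ∀ v, |v - x| < δ → v ≠ x → v ∉ T := by
        intro v hv hvx hvT
        obtain ⟨j, hj1, hj2⟩ := (hTm v).1 hvT
        have h1 := hgap j hj1 (by rw [hj2]; exact hvx)
        rw [hj2] at h1
        linarith
      rcases lt_or_gt_of_ne htne with h1 | h1
      · rcases lt_or_gt_of_ne hune with h2 | h2
        · -- both left
          obtain ⟨v, hv1, hv2, hv3⟩ : ∃ v, x < v ∧ v < x + δ ∧ v ≤ d := by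
            refine ⟨min (x + δ / 2) d, lt_min (by linarith) hxd, ?_, min_le_right _ _⟩
            exact lt_of_le_of_lt (min_le_left _ _) (by linarith)
          have hvx : |v - x| < δ := by
            rw [abs_lt]
            constructor <;> linarith
          have hvI : v ∈ Icc c d := ⟨by linarith, hv3⟩
          have hvT := hnotT v hvx (ne_of_gt hv1)
          rw [hcross t ht v hvI htx hvx h1 hv1 htT hvT, hcross u hu v hvI hux hvx h2 hv1 huT hvT]
        · exact hcross t ht u hu htx hux h1 h2 htT huT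
      · rcases lt_or_gt_of_ne hune with h2 | h2
        · exact (hcross u hu t ht hux htx h2 h1 huT htT).symm
        · obtain ⟨v, hv1, hv2, hv3⟩ : ∃ v, v < x ∧ x - δ < v ∧ c ≤ v := by
            refine ⟨max (x - δ / 2) c, max_lt (by linarith) hcx, ?_, le_max_right _ _⟩
            exact lt_of_lt_of_le (by linarith) (le_max_left _ _)
          have hvx : |v - x| < δ := by
            rw [abs_lt]
            constructor <;> linarith
          have hvI : v ∈ Icc c d := ⟨hv3, by linarith⟩
          have hvT := hnotT v hvx (ne_of_lt hv1)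
          rw [← hcross v hvI t ht hvx htx hv1 h1 hvT htT, ← hcross v hvI u hu hvx hux hv1 h2 hvT huT]
    · obtain ⟨δ1, hδ1, hj⟩ := hLCO k f a b h x hW hc (hoff x hx hxT)
      have hne : ∀ i ∈ I, r i ≠ x := fun i hi h1 => hxT ((hTm x).2 ⟨i, hi, h1⟩)
      refine ⟨min δ1 δ2, lt_min hδ1 hδ2, ?_⟩
      intro t ht u hu htx hux htT huT
      have h1 := (hj t (lt_of_lt_of_le htx (min_le_left _ _))).2
      have h2 := (hj u (lt_of_lt_of_le hux (min_le_left _ _))).2
      have h3 := hmeq t ht u hu htT huT 0 (by rw [h1, h2]; simp)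
      have h4 := arcN_eq I r x δ2 t u hgap hne (lt_of_lt_of_le htx (min_le_right _ _))
        (lt_of_lt_of_le hux (min_le_right _ _))
      rw [hg, hg, h3, h4, add_zero]
  refine ⟨m d - m c, ?_, ?_⟩
  · rw [hm d (right_mem_Icc.2 hcd) hdT, hm c (left_mem_Icc.2 hcd) hcT]
    push_cast
    ring
  · rw [arc_even, hIc]
    push_cast
    have h1 : arcN I r c = 0 := by
      unfold arcN
      rw [Finset.card_eq_zero, Finset.filter_eq_empty_iff]
      intro i hi h2
      have := (hrI i hi).1
      linarith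
    have h2 : arcN I r d = I.card := by
      unfold arcN
      rw [Finset.filter_true_of_mem]
      intro i hi
      exact (hrI i hi).2
    rw [hg, hg, h1, h2] at hkey
    have h5 : (2 : ZMod 2) = 0 := rfl
    linear_combination (-1 : ZMod 2) * hkey - ((I.card : ℕ) : ZMod 2) * h5 + 0 * h5

theorem arc_thm (hWIN : WIN_S) (hLCO : LCO_S) (hLFL : LFL_S) (hIND : IND_S) : ARC_S := by
  intro k f a b h c d C hW hc hi hsub hC
  rcases le_total c d with hcd | hcd
  · rw [uIcc_of_le hcd] at hsub
    exact arc_aux hWIN hLCO hLFL hIND k f a b h c d C hW hc hi hcd hsub hC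
  · have hsub' : Icc d c ⊆ Icc 0 1 := by
      rw [uIcc_of_ge hcd] at hsub
      exact hsub
    obtain ⟨n, hn, hev⟩ := arc_aux hWIN hLCO hLFL hIND k f a b h d c C hW hc hi hcd hsub' (by
      intro i hik
      rcases hC i hik with h1 | h1
      · left
        refine ⟨h1.1, ?_⟩
        intro t ht r hr
        exact h1.2 t ht r (by rw [uIcc_comm]; exact hr)
      · right
        refine ⟨h1.1, ?_⟩
        obtain ⟨s, r, h2, h3, h4, h5, h6⟩ := h1.2
        refine ⟨s, r, h2, h3.symm, h4, h5, ?_⟩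
        intro t ht r' hr'
        exact h6 t ht r' (by rw [uIcc_comm]; exact hr'))
    refine ⟨-n, ?_, ?_⟩
    · push_cast
      linear_combination (-1 : ℂ) * hn
    · have h1 : -n - ((∑ i ∈ Finset.range k, C i : ℕ) : ℤ) =
          -(n - ((∑ i ∈ Finset.range k, C i : ℕ) : ℤ)) -
            2 * ((∑ i ∈ Finset.range k, C i : ℕ) : ℤ) := by
        ring
      rw [h1]
      exact hev.neg.sub (even_two_mul _)

end Pool.JCT
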